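import Pool.Agent.Helper52.PL.LiteGen
import Pool.Agent.Helper95.HH.RO

/-!
# PL-D1: surgery with few moved strands and unit edges

The case of the ring graph of `Helper83/HR/Ring`.
-/

set_option autoImplicit false

open Set
open Pool.Agent.Helper83.OP Pool.Agent.Helper83.LN Pool.Agent.Helper83.HR Pool.Agent.Helper93.UP
  Pool.Agent.Helper95.HH

namespace Pool.Agent.Helper52.PL

/-- a walk of the graph without the hubs is a walk of the ring graph without hubs -/
theorem ro_walk {V : Type} {H : SimpleGraph V} {U : Set V} {ord : V → V → ℕ}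
    {s t : V ⊕ Dor H U} (p : (ringOut H U ord).Walk s t) (hs : ∀ a ∈ U, s ≠ Sum.inl a) :
    ∃ q : (ringGraph H U ord).Walk s t, q.length = p.length ∧
      ∀ x ∈ q.support, x ∉ (Sum.inl '' U : Set (V ⊕ Dor H U)) := by
  induction p with
  | @nil u =>
    refine ⟨SimpleGraph.Walk.nil, rfl, ?_⟩
    intro x hx
    rw [SimpleGraph.Walk.support_nil, List.mem_singleton] at hx
    subst hx
    rintro ⟨a, ha, h⟩
    exact hs a ha h.symm
  | @cons u w v h p ih =>
    obtain ⟨q, hq, hx⟩ := ih h.2.2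
    refine ⟨SimpleGraph.Walk.cons h.1 q, ?_, ?_⟩
    · rw [SimpleGraph.Walk.length_cons, SimpleGraph.Walk.length_cons, hq]
    · intro x hx'
      rw [SimpleGraph.Walk.support_cons, List.mem_cons] at hx'
      rcases hx' with rfl | hx'
      · rintro ⟨a, ha, h⟩
        exact hs a ha h.symm
      · exact hx x hx'

/-- **PL-D1 (lite).** Surgery with few moved strands (`S0`) and unit edges. -/
theorem lite : ∃ c : ℕ, ∀ (V T : Type) [Finite V] [Fintype T] (G : SimpleGraph V) (U : Set V)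
    (Th : Threads G T) (e : Sym2 V) (M : ℕ) (S0 : Finset T),
    KPl 1 (G.deleteEdges {e}) → 1 ≤ M → (∀ u ∈ U, ∀ v ∈ U, ¬ G.Adj u v) →
    (∀ v, v ∉ U → deg G v ≤ M) → S0.card ≤ M → (∀ τ, τ ∉ S0 → Th.len τ = 1) →
    (∀ τ t, t < Th.len τ → Th.x τ t ∉ U) →
    (∀ τ, τ ∉ S0 → ∀ t < Th.len τ, s(Th.x τ t, Th.x τ (t + 1)) ≠ e) →
    (∀ ord : V → V → ℕ, IsOrd (G.deleteEdges {e}) U ord →
      ∃ pl : V → V ⊕ Dor (G.deleteEdges {e}) U,
        (∀ v, v ∉ U → ∀ a ∈ U, pl v ≠ Sum.inl a) ∧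
        (∀ τ, τ ∉ S0 → pl (Th.x τ 0) = Sum.inl (Th.x τ 0) ∧
          (Th.x τ (Th.len τ) ∉ U → pl (Th.x τ (Th.len τ)) = Sum.inl (Th.x τ (Th.len τ)))) ∧
        (∀ τ ∈ S0, Th.x τ (Th.len τ) ∉ U →
          ∃ p : (ringOut (G.deleteEdges {e}) U ord).Walk (pl (Th.x τ 0)) (pl (Th.x τ (Th.len τ))),
            p.length ≤ M * Th.len τ) ∧
        ∀ τ ∈ S0, Th.x τ (Th.len τ) ∈ U → ∃ d : Dor (G.deleteEdges {e}) U,
          d.1.2 = Th.x τ (Th.len τ) ∧
          ∃ p : (ringOut (G.deleteEdges {e}) U ord).Walk (pl (Th.x τ 0)) (Sum.inr d),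
            p.length ≤ M * Th.len τ) →
    KPl (c * M ^ 2) G := by
  classical
  refine ⟨100, ?_⟩
  intro V T _ _ G U Th e M S0 hK hM1 hUU hdeg hS0 hlen hx he hpl
  set H := G.deleteEdges {e} with hH
  have hHG : H ≤ G := SimpleGraph.deleteEdges_le _
  obtain ⟨ord, hord, hR⟩ := exists_ring H hK U (fun u hu v hv h => hUU u hu v hv (hHG h))
  have hinj : ∀ a ∈ U, Set.InjOn (ord a) (H.neighborSet a) := fun a ha => (hord a ha).injOn
  obtain ⟨pl, hp1, hp2, hp3, hp4⟩ := hpl ord hord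
  -- old edges
  have hadj : ∀ τ, τ ∉ S0 → ∀ t < Th.len τ, H.Adj (Th.x τ t) (Th.x τ (t + 1)) := by
    intro τ h t ht
    rw [hH, SimpleGraph.deleteEdges_adj]
    exact ⟨Th.adj τ t ht, fun h' => he τ h t ht h'⟩
  by_cases hne : (ringGraph H U ord).edgeSet.Nonempty
  · -- the main case
    have hex : ∀ τ, ∃ (z : ℕ → V ⊕ Dor H U) (zl : ℕ), τ ∉ S0 → OldSpec H U Th τ z zl := by
      intro τ
      by_cases h : τ ∈ S0
      · exact ⟨fun _ => Sum.inl (Th.x τ 0), 0, fun h' => absurd h h'⟩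
      · obtain ⟨z, zl, h1⟩ := exists_old (H := H) (U := U) Th τ (hadj τ h)
        exact ⟨z, zl, fun _ => h1⟩
    choose z zl hz using hex
    have hsys : OldSys (ringGraph H U ord) (Sum.inl '' U) (S0 : Set T) z zl :=
      old_sys hHG hinj Th (S0 : Set T) hx (fun τ h => hadj τ (fun h' => h (Finset.mem_coe.2 h')))
        z zl (fun τ h => hz τ (fun h' => h (Finset.mem_coe.2 h')))
    let plU : V → V ⊕ Dor H U := fun v => if v ∈ U then Sum.inl v else pl v
    have hplU : ∀ u ∈ U, plU u = Sum.inl u := fun u hu => if_pos hu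
    have hplN : ∀ u, u ∉ U → plU u = pl u := fun u hu => if_neg hu
    refine lite_gen G (ringGraph H U ord) (Sum.inl '' U) Th plU z zl M S0 hR hne
      ?_ ?_ hM1 hS0 ?_ hsys ?_ ?_
    · rintro x ⟨a, ha, rfl⟩ (v | d) h
      · exact absurd ha (show H.Adj a v ∧ a ∉ U ∧ v ∉ U from h).2.1
      · exact deg_dor hinj d
    · rintro (v | d) h
      · have hv : v ∉ U := fun hv => h ⟨v, hv, rfl⟩
        refine (deg_inl (H := H) (ord := ord) hv).trans ((deg_mono hHG v).trans ((hdeg v hv).trans ?_))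
        omega
      · exact (deg_dor hinj d).trans (by omega)
    · rintro u u' ⟨a, ha, h1⟩ h2
      by_cases hu : u ∈ U
      · by_cases hu' : u' ∈ U
        · rw [hplU u hu, hplU u' hu'] at h2
          exact Sum.inl.inj h2
        · rw [hplU u hu, hplN u' hu'] at h2
          exact absurd h2.symm (hp1 u' hu' u hu)
      · rw [hplN u hu] at h1
        exact absurd h1.symm (hp1 u hu a ha)
    · intro τ h
      have h1 := hz τ h
      refine ⟨?_, ?_, ?_⟩
      · rw [hplN _ (hx τ 0 (Th.pos τ)), (hp2 τ h).1]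
        exact h1.start 0 (Th.pos τ)
      · rw [h1.last]
        by_cases h2 : Th.x τ (Th.len τ) ∈ U
        · exact (hplU _ h2).symm
        · rw [hplN _ h2, (hp2 τ h).2 h2]
      · have h2 := h1.le.2
        rw [hlen τ h] at h2
        exact h2
    · intro τ h
      have h0 := hx τ 0 (Th.pos τ)
      rw [hplN _ h0]
      by_cases h2 : Th.x τ (Th.len τ) ∈ U
      · obtain ⟨d, hd, p, hp⟩ := hp4 τ h h2
        obtain ⟨q, hq, hq'⟩ := ro_walk p (hp1 _ h0)
        refine ⟨Sum.inr d, Or.inr ⟨?_, ?_⟩, q, hq', by rw [hq]; exact hp⟩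
        · rw [hplU _ h2]
          exact ⟨_, h2, rfl⟩
        · rw [hplU _ h2]
          exact Or.inr hd.symm
      · obtain ⟨p, hp⟩ := hp3 τ h h2
        obtain ⟨q, hq, hq'⟩ := ro_walk p (hp1 _ h0)
        refine ⟨pl (Th.x τ (Th.len τ)), Or.inl (hplN _ h2).symm, q, hq', by rw [hq]; exact hp⟩
  · -- no edges: all threads are in `S0`
    have hall : ∀ τ, τ ∈ S0 := by
      intro τ
      by_contra h
      have h1 := hadj τ h 0 (Th.pos τ)
      have h0 := hx τ 0 (Th.pos τ)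
      refine hne ?_
      by_cases h2 : Th.x τ (0 + 1) ∈ U
      · exact ⟨s(Sum.inl (Th.x τ 0), Sum.inr ⟨(Th.x τ 0, Th.x τ (0 + 1)), h1, h2⟩), Or.inl rfl⟩
      · exact ⟨s(Sum.inl (Th.x τ 0), Sum.inl (Th.x τ (0 + 1))), h1, h0, h2⟩
    refine lite_gen G (⊤ : SimpleGraph Bool) ∅ Th (fun _ => true) (fun _ _ => true) (fun _ => 0)
      M S0 kpl_two ⟨s(false, true), Bool.false_ne_true⟩ (fun _ h => absurd h (Set.notMem_empty _))
      ?_ hM1 hS0 (fun _ _ h => absurd h (Set.notMem_empty _))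
      ⟨?_, ?_, ?_, ?_, ?_, ?_⟩ ?_ ?_
    · intro v _
      have h1 := deg_two v
      omega
    · exact fun τ h => absurd (Finset.mem_coe.2 (hall τ)) h
    · exact fun τ h => absurd (Finset.mem_coe.2 (hall τ)) h
    · exact fun τ h => absurd (Finset.mem_coe.2 (hall τ)) h
    · exact fun τ h => absurd (Finset.mem_coe.2 (hall τ)) h
    · exact fun τ h => absurd (Finset.mem_coe.2 (hall τ)) h
    · exact fun τ h => absurd (Finset.mem_coe.2 (hall τ)) h
    · exact fun τ h => absurd (hall τ) h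
    · intro τ _
      refine ⟨true, Or.inl rfl, SimpleGraph.Walk.nil, fun _ _ h => Set.notMem_empty _ h, ?_⟩
      rw [SimpleGraph.Walk.length_nil]
      exact Nat.zero_le _

end Pool.Agent.Helper52.PL
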