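import Pool.Agent.Helper52.PL.Lite
import Pool.Agent.Helper95.HH.GOk
import Pool.Agent.Helper71.UT.ToThreads

/-!
# PL-D2: moving a set `C` of vertices

The graph is cut at all vertices which are not inner vertices of threads with an end in `C`: the segments are these
threads and unit edges. Then `lite`.
-/

set_option autoImplicit false

open Set
open Pool.Agent.Helper83.OP Pool.Agent.Helper83.LN Pool.Agent.Helper83.HR Pool.Agent.Helper93.HH
  Pool.Agent.Helper95.HH

namespace Pool.Agent.Helper52.PL

section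

variable {V : Type} {G : SimpleGraph V}

/-- the inner vertices of the threads with an end in `C` -/
inductive Inn (G : SimpleGraph V) (C : Set V) : V → Prop
  | base (u z : V) : u ∈ C → G.Adj u z → deg G z = 2 → Inn G C z
  | step (y z : V) : Inn G C y → G.Adj y z → deg G z = 2 → Inn G C z

theorem inn_deg {C : Set V} {z : V} (h : Inn G C z) : deg G z = 2 := by
  cases h <;> assumption

/-- a segment with an inner vertex has an end in `C` -/
theorem inn_end [Finite V] {C : Set V} {T : Type} (Sg : Pool.Agent.Helper95.UP.Seg G T)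
    (ha : ∀ q, ¬ Inn G C (Sg.a q)) (hb : ∀ q, ¬ Inn G C (Sg.b q))
    (hC : ∀ u ∈ C, deg G u ≠ 2) (q : T) {z : V} (hz : Inn G C z) :
    z ∈ (Sg.T q).support → Sg.a q ∈ C ∨ Sg.b q ∈ C := by
  induction hz with
  | base u z hu hadj hd =>
    intro hs
    have hI : Inn G C z := Inn.base u z hu hadj hd
    have h1 : z ≠ Sg.a q := fun h => ha q (h ▸ hI)
    have h2 : z ≠ Sg.b q := fun h => hb q (h ▸ hI)
    have h3 := Pool.Agent.Helper71.UT.edge_inner (Sg.path q) hs h1 h2 hd hadj.symm
    have h4 := (Sg.T q).snd_mem_support_of_mem_edges h3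
    by_contra h5
    push Not at h5
    exact hC u hu (Sg.inner q u h4 (fun h => h5.1 (h ▸ hu)) (fun h => h5.2 (h ▸ hu)))
  | step y z hy hadj hd ih =>
    intro hs
    have hI : Inn G C z := Inn.step y z hy hadj hd
    have h1 : z ≠ Sg.a q := fun h => ha q (h ▸ hI)
    have h2 : z ≠ Sg.b q := fun h => hb q (h ▸ hI)
    have h3 := Pool.Agent.Helper71.UT.edge_inner (Sg.path q) hs h1 h2 hd hadj.symm
    exact ih ((Sg.T q).snd_mem_support_of_mem_edges h3)

theorem inn_chain {C : Set V} {u v : V} (T : G.Walk u v) (hu : u ∈ C) (n : ℕ) (hn : n ≤ T.length)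
    (hd : ∀ i, 1 ≤ i → i ≤ n → deg G (T.getVert i) = 2) :
    ∀ i, 1 ≤ i → i ≤ n → Inn G C (T.getVert i) := by
  intro i
  induction i with
  | zero => intro h; omega
  | succ i ih =>
    intro _ hi
    have hadj := T.adj_getVert_succ (i := i) (by omega)
    rcases Nat.eq_zero_or_pos i with rfl | h0
    · rw [T.getVert_zero] at hadj
      exact Inn.base u _ hu hadj (hd _ (by omega) hi)
    · exact Inn.step _ _ (ih h0 (by omega)) hadj (hd _ (by omega) hi)

/-- two paths with a common start and a common first edge; the inner vertices of the first have degree two -/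
theorem follow [Finite V] {a b c : V} {p : G.Walk a b} {q : G.Walk a c}
    (hp : p.IsPath) (hq : q.IsPath) (hin : ∀ x ∈ p.support, x ≠ a → x ≠ b → deg G x = 2)
    (h1 : p.getVert 1 = q.getVert 1) :
    ∀ i, i ≤ p.length → i ≤ q.length → p.getVert i = q.getVert i := by
  have key : ∀ i, (i ≤ p.length → i ≤ q.length → p.getVert i = q.getVert i) ∧
      (i + 1 ≤ p.length → i + 1 ≤ q.length → p.getVert (i + 1) = q.getVert (i + 1)) := by
    intro i
    induction i with
    | zero => exact ⟨fun _ _ => by simp, fun _ _ => by simpa using h1⟩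
    | succ i ih =>
      refine ⟨ih.2, fun hi hi' => ?_⟩
      have e0 := ih.1 (by omega) (by omega)
      have e1 := ih.2 (by omega) (by omega)
      have hd : deg G (p.getVert (i + 1)) = 2 := by
        apply hin _ (p.getVert_mem_support _)
        · intro h
          have := (hp.getVert_eq_start_iff (by omega)).mp h
          omega
        · intro h
          have := (hp.getVert_eq_end_iff (by omega)).mp h
          omega
      have hadj : G.Adj (p.getVert (i + 1)) (q.getVert (i + 1 + 1)) := by
        rw [e1]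
        exact q.adj_getVert_succ (by omega)
      rcases Pool.Agent.Helper71.UT.nbr_inner hp (i := i + 1) (by omega) (by omega) hd hadj with h | h
      · exfalso
        have h2 : q.getVert (i + 1 + 1) = q.getVert i := by
          rw [h]
          simpa using e0
        have := hq.getVert_injOn (by simp; omega) (by simp; omega) h2
        omega
      · exact h.symm
  exact fun i => (key i).1

end

section

variable {V P Q : Type} [Finite V] (D : HD V P Q)

theorem VN_of_adj {u v : V} (h : D.N.Adj u v) : v ∈ D.VN := by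
  left
  unfold deg
  intro h0
  rw [Set.ncard_eq_zero (Set.toFinite _)] at h0
  have : u ∈ D.N.neighborSet v := h.symm
  rw [h0] at this
  exact this

omit [Finite V] in
theorem VN_U (hD : D.Ok) {v : V} (h : v ∈ D.VN) : v ∉ D.U := by
  rcases h with h | ⟨p, rfl⟩
  · unfold deg at h
    have h1 : (D.N.neighborSet v).Nonempty := by
      by_contra h2
      rw [Set.not_nonempty_iff_eq_empty] at h2
      exact h (by rw [h2, Set.ncard_empty])
    obtain ⟨w, hw⟩ := h1
    exact hD.N_U v w hw
  · exact hD.x_U p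

/-- a thread which starts at a vertex of `N`: a pin or a thread of `N` -/
theorem thread_at (hD : D.Ok) (hG : GOk D) {u v : V} (T : D.G.Walk u v) (hT : T.IsPath)
    (huv : u ≠ v) (hu : u ∈ D.VN) (hv : deg D.G v ≠ 2)
    (hin : ∀ x ∈ T.support, x ≠ u → x ≠ v → deg D.G x = 2) :
    (∃ q, D.x q = u ∧ D.hub q = v ∧ (D.w q).length = T.length) ∨
      (v ∈ D.VN ∧ ∃ A : D.N.Walk u v, A.IsPath ∧ A.length = T.length ∧
        ∀ z ∈ A.support, z ∈ T.support) := by
  have hpos : 0 < T.length := by
    rcases Nat.eq_zero_or_pos T.length with h | h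
    · exact absurd (SimpleGraph.Walk.eq_of_length_eq_zero h) huv
    · exact h
  have hinn : ∀ i, 0 < i → i < T.length → deg D.G (T.getVert i) = 2 := by
    intro i h0 hi
    apply hin _ (T.getVert_mem_support _)
    · intro h
      have := (hT.getVert_eq_start_iff hi.le).mp h
      omega
    · intro h
      have := (hT.getVert_eq_end_iff hi.le).mp h
      omega
  have hadj : D.G.Adj u (T.getVert 1) := by
    have := T.adj_getVert_succ hpos
    rwa [T.getVert_zero] at this
  rcases hG.cover _ _ hadj with h | ⟨p, h⟩ | ⟨q, h⟩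
  · right
    have hN : ∀ i, i < T.length → D.N.Adj (T.getVert i) (T.getVert (i + 1)) := by
      intro i
      induction i with
      | zero =>
        intro _
        rw [T.getVert_zero]
        exact h
      | succ i ih =>
        intro hi
        have h1 := ih (by omega)
        have h2 := VN_of_adj D h1
        have h3 := hinn (i + 1) (by omega) hi
        rcases hG.cover _ _ (T.adj_getVert_succ hi) with h | ⟨p, h⟩ | ⟨q, h⟩
        · exact h
        · exfalso
          have h4 := (D.w p).fst_mem_support_of_mem_edges h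
          have h5 : T.getVert (i + 1) = D.x p := by
            by_contra h6
            exact hD.w_N p _ h4 h6 h2
          have h6 := hG.dg_eq _ h2
          have h7 := hD.three p
          rw [← h5] at h7
          omega
        · exact absurd h2 (hD.wq_N q _ ((D.wq q).fst_mem_support_of_mem_edges h))
    have hed : ∀ f ∈ T.edges, f ∈ D.N.edgeSet := by
      intro f hf
      obtain ⟨t, ht, rfl⟩ := Pool.Agent.Helper71.UT.edge_index T hf
      exact hN t ht
    have h1 := hN (T.length - 1) (by omega)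
    rw [Nat.sub_add_cancel hpos, T.getVert_length] at h1
    refine ⟨VN_of_adj D h1, T.transfer D.N hed, hT.transfer hed, ?_, ?_⟩
    · exact T.length_transfer hed
    · intro z hz
      rw [SimpleGraph.Walk.support_transfer] at hz
      exact hz
  · left
    have h4 := (D.w p).fst_mem_support_of_mem_edges h
    have h5 : u = D.x p := by
      by_contra h6
      exact hD.w_N p _ h4 h6 hu
    subst h5
    have hR := hD.w_path p
    have h1 : T.getVert 1 = (D.w p).getVert 1 := hR.eq_snd_of_mem_edges h
    have hf := follow hT hR hin h1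
    have hlen : 0 < (D.w p).length := by
      have := hD.w_ge p
      have := hD.r_pos
      omega
    rcases le_or_gt (D.w p).length T.length with hl | hl
    · have h2 := hf _ hl le_rfl
      rw [SimpleGraph.Walk.getVert_length] at h2
      rcases hl.lt_or_eq with h3 | h3
      · exfalso
        have h6 := hinn _ hlen h3
        rw [h2] at h6
        have := hG.U_ge _ (hD.hub_U p)
        omega
      · refine ⟨p, rfl, ?_, h3⟩
        rw [← h2, h3, SimpleGraph.Walk.getVert_length]
    · exfalso
      have h2 := hf _ le_rfl hl.le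
      rw [SimpleGraph.Walk.getVert_length] at h2
      refine hv (hG.w_deg p v ?_ ?_ ?_)
      · rw [h2]
        exact (D.w p).getVert_mem_support _
      · exact huv.symm
      · intro h3
        have := (hR.getVert_eq_end_iff hl.le).mp (h2.symm.trans h3)
        omega
  · exact absurd hu (hD.wq_N q _ ((D.wq q).fst_mem_support_of_mem_edges h))

omit [Finite V] in
/-- no two hubs are adjacent -/
theorem hubs_na (hD : D.Ok) (hG : GOk D) : ∀ u ∈ D.U, ∀ v ∈ D.U, ¬ D.G.Adj u v := by
  intro u hu v hv hadj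
  rcases hG.cover _ _ hadj with h | ⟨p, h⟩ | ⟨q, h⟩
  · exact hD.N_U _ _ h hu
  · have h1 := (D.w p).fst_mem_support_of_mem_edges h
    have h2 := (D.w p).snd_mem_support_of_mem_edges h
    by_cases h3 : u = D.hub p
    · exact hD.w_U p v h2 (fun h4 => hadj.ne (h3.trans h4.symm)) hv
    · exact hD.w_U p u h1 h3 hu
  · have h1 := (D.wq q).fst_mem_support_of_mem_edges h
    have h2 := (D.wq q).snd_mem_support_of_mem_edges h
    have h3 : s(D.ha q, D.hb q) ∈ (D.wq q).edges := by
      by_cases hua : u = D.ha q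
      · by_cases hvb : v = D.hb q
        · rw [hua, hvb] at h
          exact h
        · exact absurd hv (hD.wq_U q v h2 (fun h4 => hadj.ne (hua.trans h4.symm)) hvb)
      · by_cases hub : u = D.hb q
        · by_cases hva : v = D.ha q
          · rw [hub, hva, Sym2.eq_swap] at h
            exact h
          · exact absurd hv (hD.wq_U q v h2 hva (fun h4 => hadj.ne (hub.trans h4.symm)))
        · exact absurd hu (hD.wq_U q u h1 hua hub)
    have h4 := (hD.wq_path q).eq_snd_of_mem_edges h3
    have h5 := hG.wq_ge q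
    have h6 := hD.r_pos
    have h7 := ((hD.wq_path q).getVert_eq_end_iff (show 1 ≤ (D.wq q).length by omega)).mp h4.symm
    omega

end

/-- the walk of a moved strand which starts at a moved vertex -/
theorem strand {V P Q : Type} [Finite V] (D : HD V P Q) (e : Sym2 V) (M : ℕ) (C : Set V)
    (hD : D.Ok) (hG : GOk D) (hC : ∀ v ∈ C, v ∈ D.VN ∧ 3 ≤ D.dg v) (ord : V → V → ℕ)
    (f : V → V ⊕ Dor (D.G.deleteEdges {e}) D.U)
    (f2 : ∀ u ∈ C, ∀ v ∈ C, ∀ A : D.N.Walk u v, A.IsPath →
      ∃ p : (ringOut (D.G.deleteEdges {e}) D.U ord).Walk (f u) (f v), p.length ≤ M * A.length)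
    (f3 : ∀ u ∈ C, ∀ v, v ∉ C → v ∈ D.VN → 3 ≤ D.dg v → ∀ A : D.N.Walk u v, A.IsPath →
      (∀ z ∈ A.support, z ≠ u → z ≠ v → D.dg z = 2) →
      ∃ p : (ringOut (D.G.deleteEdges {e}) D.U ord).Walk (f u) (Sum.inl v),
        p.length ≤ M * A.length)
    (f4 : ∀ q, D.x q ∈ C → ∃ d : Dor (D.G.deleteEdges {e}) D.U, d.1.2 = D.hub q ∧
      ∃ p : (ringOut (D.G.deleteEdges {e}) D.U ord).Walk (f (D.x q)) (Sum.inr d),
        p.length ≤ M * (D.w q).length)
    (pl : V → V ⊕ Dor (D.G.deleteEdges {e}) D.U) (hpC : ∀ v ∈ C, pl v = f v)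
    (hpN : ∀ v, v ∉ C → pl v = Sum.inl v)
    {u v : V} (T : D.G.Walk u v) (hT : T.IsPath) (huv : u ≠ v) (hu : u ∈ C)
    (hv : ¬ Inn D.G C v) (hin : ∀ x ∈ T.support, x ≠ u → x ≠ v → deg D.G x = 2) :
    (v ∉ D.U → ∃ p : (ringOut (D.G.deleteEdges {e}) D.U ord).Walk (pl u) (pl v),
      p.length ≤ M * T.length) ∧
    (v ∈ D.U → ∃ d : Dor (D.G.deleteEdges {e}) D.U, d.1.2 = v ∧
      ∃ p : (ringOut (D.G.deleteEdges {e}) D.U ord).Walk (pl u) (Sum.inr d),
        p.length ≤ M * T.length) := by
  have hd2 : deg D.G v ≠ 2 := by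
    intro h2
    have hpos : 0 < T.length := by
      rcases Nat.eq_zero_or_pos T.length with h | h
      · exact absurd (SimpleGraph.Walk.eq_of_length_eq_zero h) huv
      · exact h
    have h1 := inn_chain T hu T.length le_rfl (by
      intro i hi hil
      by_cases h3 : T.getVert i = v
      · rw [h3]
        exact h2
      · refine hin _ (T.getVert_mem_support _) ?_ h3
        intro h
        have := (hT.getVert_eq_start_iff hil).mp h
        omega) T.length hpos le_rfl
    rw [T.getVert_length] at h1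
    exact hv h1
  rcases thread_at D hD hG T hT huv (hC u hu).1 hd2 hin with ⟨q, h1, h2, h3⟩ | ⟨h1, A, hA, hl, hs⟩
  · subst h1
    subst h2
    refine ⟨fun h => absurd (hD.hub_U q) h, fun _ => ?_⟩
    rw [hpC _ hu, ← h3]
    exact f4 q hu
  · have hvU := VN_U D hD h1
    refine ⟨fun _ => ?_, fun h => absurd h hvU⟩
    rw [hpC _ hu, ← hl]
    by_cases hvC : v ∈ C
    · rw [hpC _ hvC]
      exact f2 u hu v hvC A hA
    · rw [hpN _ hvC]
      refine f3 u hu v hvC h1 ?_ A hA ?_
      · have := hD.two v h1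
        have := hG.dg_eq v h1
        omega
      · intro z hz hzu hzv
        obtain ⟨w, hw⟩ := Pool.Agent.Helper71.UT.exists_edge A huv hz
        have h4 : D.N.Adj z w := A.adj_of_mem_edges hw
        rw [← hG.dg_eq z (VN_of_adj D h4.symm)]
        exact hin z (hs z hz) hzu hzv

open Classical in
/-- the number of segments with an end in `C` -/
theorem card_seg {V T : Type} [Finite V] {G : SimpleGraph V}
    (Sg : Pool.Agent.Helper95.UP.Seg G T) (C : Set V) (S0 : Finset T)
    (hS : ∀ q ∈ S0, Sg.a q ∈ C ∨ Sg.b q ∈ C) (M K : ℕ) (hC : C.ncard ≤ M)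
    (hdeg : ∀ u ∈ C, deg G u ≤ K) : S0.card ≤ M * K := by
  have hpos : ∀ q, 0 < (Sg.T q).length := by
    intro q
    rcases Nat.eq_zero_or_pos (Sg.T q).length with h | h
    · exact absurd (SimpleGraph.Walk.eq_of_length_eq_zero h) (Sg.ne q)
    · exact h
  have hF : ∀ q, ∃ x : V × V, s(x.1, x.2) ∈ (Sg.T q).edges ∧ (q ∈ S0 → x.1 ∈ C) := by
    intro q
    by_cases h : Sg.a q ∈ C
    · refine ⟨(Sg.a q, (Sg.T q).getVert 1), ?_, fun _ => h⟩
      have := Pool.Agent.Helper71.UT.mem_edges_getVert (Sg.T q) (hpos q)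
      rwa [SimpleGraph.Walk.getVert_zero] at this
    · refine ⟨(Sg.b q, (Sg.T q).getVert ((Sg.T q).length - 1)), ?_, fun hq => ?_⟩
      · have := Pool.Agent.Helper71.UT.mem_edges_getVert (Sg.T q) (i := (Sg.T q).length - 1)
          (by have := hpos q; omega)
        rw [Nat.sub_add_cancel (hpos q), SimpleGraph.Walk.getVert_length] at this
        rw [Sym2.eq_swap]
        exact this
      · rcases hS q hq with h1 | h1
        · exact absurd h1 h
        · exact h1
  choose F hF1 hF2 using hF
  have h1 : S0.card ≤ ((Set.toFinite C).toFinset.biUnion fun u =>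
      (Set.toFinite (G.neighborSet u)).toFinset.image fun w => (u, w)).card := by
    refine Finset.card_le_card_of_injOn F ?_ ?_
    · intro q hq
      have hq' : q ∈ S0 := hq
      rw [Finset.mem_coe, Finset.mem_biUnion]
      refine ⟨(F q).1, (Set.Finite.mem_toFinset _).2 (hF2 q hq'), ?_⟩
      rw [Finset.mem_image]
      exact ⟨(F q).2, (Set.Finite.mem_toFinset _).2 ((Sg.T q).adj_of_mem_edges (hF1 q)), rfl⟩
    · intro q hq q' hq' h
      refine Sg.disj q q' _ (hF1 q) ?_
      rw [h]
      exact hF1 q'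
  refine h1.trans ?_
  refine (Finset.card_biUnion_le_card_mul _ _ K ?_).trans ?_
  · intro u hu
    refine Finset.card_image_le.trans ?_
    rw [← Set.ncard_eq_toFinset_card (G.neighborSet u) (Set.toFinite _)]
    exact hdeg u ((Set.Finite.mem_toFinset _).1 hu)
  · rw [← Set.ncard_eq_toFinset_card C (Set.toFinite _)]
    exact Nat.mul_le_mul_right _ hC

/-- **PL-D2 (move).** Moving a set `C` of vertices of `N` (not hubs). `e` is an edge at the pin `p0` of a vertex of `C`.
`f v` is the new place of `v ∈ C`. Threads of `N` between two vertices of `C`; threads of `N` leaving `C` are long; pins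
at `C` are long or their hub is near. -/
theorem move : ∃ c : ℕ, ∀ (V P Q : Type) [Finite V] [Finite P] [Finite Q] (D : HD V P Q)
    (p0 : P) (e : Sym2 V) (M : ℕ) (C : Set V), D.Ok → GOk D → e ∈ (D.w p0).edges →
    KPl 1 (D.G.deleteEdges {e}) → 1 ≤ M → D.Kh * D.r ≤ M → C.ncard ≤ M → D.x p0 ∈ C →
    (∀ v ∈ C, v ∈ D.VN ∧ 3 ≤ D.dg v) →
    (∀ ord : V → V → ℕ, IsOrd (D.G.deleteEdges {e}) D.U ord →
      ∃ f : V → V ⊕ Dor (D.G.deleteEdges {e}) D.U,
        (∀ v ∈ C, ∀ a ∈ D.U, f v ≠ Sum.inl a) ∧
        (∀ u ∈ C, ∀ v ∈ C, ∀ A : D.N.Walk u v, A.IsPath →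
          ∃ p : (ringOut (D.G.deleteEdges {e}) D.U ord).Walk (f u) (f v), p.length ≤ M * A.length) ∧
        (∀ u ∈ C, ∀ v, v ∉ C → v ∈ D.VN → 3 ≤ D.dg v → ∀ A : D.N.Walk u v, A.IsPath →
          (∀ z ∈ A.support, z ≠ u → z ≠ v → D.dg z = 2) →
          ∃ p : (ringOut (D.G.deleteEdges {e}) D.U ord).Walk (f u) (Sum.inl v),
            p.length ≤ M * A.length) ∧
        ∀ q, D.x q ∈ C → ∃ d : Dor (D.G.deleteEdges {e}) D.U, d.1.2 = D.hub q ∧
          ∃ p : (ringOut (D.G.deleteEdges {e}) D.U ord).Walk (f (D.x q)) (Sum.inr d),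
            p.length ≤ M * (D.w q).length) →
    KPl (c * M ^ 6) D.G := by
  classical
  obtain ⟨c, hlite⟩ := lite
  refine ⟨c, ?_⟩
  intro V P Q _ _ _ D p0 e M C hD hG he hK hM1 hKM hCM hp0 hC hf
  have hC2 : ∀ u ∈ C, deg D.G u ≠ 2 := by
    intro u hu
    have h1 := hC u hu
    have h2 := hG.dg_eq u h1.1
    omega
  have hCU : ∀ u ∈ C, u ∉ D.U := fun u hu => VN_U D hD (hC u hu).1
  have hUN : ∀ u ∈ D.U, ¬ Inn D.G C u := by
    intro u hu h
    have := inn_deg h
    have := hG.U_ge u hu
    omega
  have hM3 : M ≤ M ^ 3 ∧ M * M ≤ M ^ 3 := by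
    have h1 : M * M ≤ M * M * M := Nat.le_mul_of_pos_right _ hM1
    have h2 : M ≤ M * M := Nat.le_mul_of_pos_right _ hM1
    have h3 : M ^ 3 = M * M * M := by ring
    omega
  obtain ⟨T, hT, ⟨Ct⟩⟩ := Pool.Agent.Helper71.UT.exists_cut (G := D.G)
    (M := {v | ¬ Inn D.G C v}) (fun v hv h => hv (inn_deg h)) (by
      intro x Z hZ
      obtain ⟨u, hu, v, hv, huv, h1, h2⟩ := hG.cyc x Z hZ
      refine ⟨u, hu, v, hv, huv, fun h => ?_, fun h => ?_⟩
      · have := inn_deg h
        omega
      · have := inn_deg h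
        omega)
  have hpos : ∀ q, 0 < (Ct.sg.T q).length := by
    intro q
    rcases Nat.eq_zero_or_pos (Ct.sg.T q).length with h | h
    · exact absurd (SimpleGraph.Walk.eq_of_length_eq_zero h) (Ct.sg.ne q)
    · exact h
  -- unit edges
  have hlen1 : ∀ q, Ct.sg.a q ∉ C → Ct.sg.b q ∉ C → (Ct.sg.T q).length = 1 := by
    intro q ha hb
    by_contra h
    have h1 : 1 < (Ct.sg.T q).length := by
      have := hpos q
      omega
    have hz : Inn D.G C ((Ct.sg.T q).getVert 1) := by
      by_contra h2
      refine Ct.nm q _ ((Ct.sg.T q).getVert_mem_support 1) ?_ ?_ h2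
      · intro h
        have := ((Ct.sg.path q).getVert_eq_start_iff h1.le).mp h
        omega
      · intro h
        have := ((Ct.sg.path q).getVert_eq_end_iff h1.le).mp h
        omega
    rcases inn_end Ct.sg Ct.ma Ct.mb hC2 q hz ((Ct.sg.T q).getVert_mem_support 1) with h2 | h2
    · exact ha h2
    · exact hb h2
  have hno : ∀ q, Ct.sg.a q ∈ D.U → Ct.sg.b q ∉ D.U := by
    intro q ha hb
    have h1 := hlen1 q (fun h => hCU _ h ha) (fun h => hCU _ h hb)
    exact hubs_na D hD hG _ ha _ hb (SimpleGraph.Walk.adj_of_length_eq_one h1)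
  -- orientation
  have hor : ∀ q, ∃ (u v : V) (p : D.G.Walk u v), p.IsPath ∧ u ≠ v ∧ u ∉ D.U ∧
      ¬ Inn D.G C u ∧ ¬ Inn D.G C v ∧ (u ∉ C → v ∉ C → p.length = 1) ∧
      (∀ f, f ∈ p.edges ↔ f ∈ (Ct.sg.T q).edges) ∧
      (∀ x ∈ p.support, x ≠ u → x ≠ v → deg D.G x = 2) := by
    intro q
    by_cases ha : Ct.sg.a q ∈ D.U
    · refine ⟨Ct.sg.b q, Ct.sg.a q, (Ct.sg.T q).reverse, (Ct.sg.path q).reverse, (Ct.sg.ne q).symm,
        hno q ha, Ct.mb q, Ct.ma q, ?_, ?_, ?_⟩
      · intro h1 h2
        rw [SimpleGraph.Walk.length_reverse]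
        exact hlen1 q h2 h1
      · intro f; simp
      · intro x hx hxu hxv
        rw [SimpleGraph.Walk.support_reverse, List.mem_reverse] at hx
        exact Ct.sg.inner q x hx hxv hxu
    · exact ⟨Ct.sg.a q, Ct.sg.b q, Ct.sg.T q, Ct.sg.path q, Ct.sg.ne q, ha, Ct.ma q, Ct.mb q,
        hlen1 q, fun _ => Iff.rfl, Ct.sg.inner q⟩
  choose u v p hp huv huU hnu hnv hl1 hed hin using hor
  let Sg' : Pool.Agent.Helper95.UP.Seg D.G T :=
    { a := u, b := v, T := p, ne := huv, path := hp
      cover := fun f hf => by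
        obtain ⟨q, hq⟩ := Ct.sg.cover f hf
        exact ⟨q, (hed q f).mpr hq⟩
      disj := fun q q' f hf hf' => Ct.sg.disj q q' f ((hed q f).mp hf) ((hed q' f).mp hf')
      inner := hin }
  have hTf : Fintype T := Fintype.ofFinite T
  set S0 : Finset T := Finset.univ.filter fun q => u q ∈ C ∨ v q ∈ C with hS0
  have hmS : ∀ q, q ∈ S0 ↔ (u q ∈ C ∨ v q ∈ C) := fun q => by simp [hS0]
  have hx0 : ∀ q, (Pool.Agent.Helper71.UT.toThreads Sg').x q 0 = u q := fun q =>
    Pool.Agent.Helper71.UT.toThreads_zero Sg' q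
  have hxl : ∀ q, (Pool.Agent.Helper71.UT.toThreads Sg').x q
      ((Pool.Agent.Helper71.UT.toThreads Sg').len q) = v q := fun q =>
    Pool.Agent.Helper71.UT.toThreads_last Sg' q
  have hll : ∀ q, (Pool.Agent.Helper71.UT.toThreads Sg').len q = (p q).length := fun _ => rfl
  have hfin := hlite V T D.G D.U (Pool.Agent.Helper71.UT.toThreads Sg') e (M ^ 3) S0 hK
    (Nat.one_le_pow _ _ hM1) (hubs_na D hD hG)
    (fun v hv => (hG.deg_le v hv).trans (hKM.trans hM3.1)) ?_ ?_ ?_ ?_ ?_
  · have h1 : c * (M ^ 3) ^ 2 = c * M ^ 6 := by ring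
    rwa [h1] at hfin
  · -- the number of moved strands
    refine (card_seg Sg' C S0 (fun q hq => (hmS q).1 hq) M (D.Kh * D.r) hCM
      (fun u hu => hG.deg_le u (hCU u hu))).trans ?_
    exact (Nat.mul_le_mul_left _ hKM).trans hM3.2
  · intro q hq
    rw [hmS, not_or] at hq
    exact hl1 q hq.1 hq.2
  · intro q t ht
    show (p q).getVert t ∉ D.U
    have ht' : t < (p q).length := ht
    rcases Nat.eq_zero_or_pos t with rfl | h0
    · rw [SimpleGraph.Walk.getVert_zero]
      exact huU q
    · intro hU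
      have hd : deg D.G ((p q).getVert t) = 2 := by
        apply hin q _ ((p q).getVert_mem_support _)
        · intro h
          have := ((hp q).getVert_eq_start_iff ht'.le).mp h
          omega
        · intro h
          have := ((hp q).getVert_eq_end_iff ht'.le).mp h
          omega
      have := hG.U_ge _ hU
      omega
  · -- the edge `e` is on a moved strand
    intro q hq t ht h
    rw [hmS] at hq
    apply hq
    have h1 : s((p q).getVert t, (p q).getVert (t + 1)) ∈ (p q).edges :=
      Pool.Agent.Helper71.UT.mem_edges_getVert (p q) ht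
    have h2 : e ∈ (p q).edges := by
      rw [← h]
      exact h1
    obtain ⟨i, hi, hie⟩ := Pool.Agent.Helper71.UT.edge_index (D.w p0) he
    have h3 : (D.w p0).getVert i ∈ (p q).support := by
      rw [hie] at h2
      exact (p q).fst_mem_support_of_mem_edges h2
    rcases Nat.eq_zero_or_pos i with rfl | h0
    · rw [SimpleGraph.Walk.getVert_zero] at h3
      by_contra h4
      push Not at h4
      exact hC2 _ hp0 (hin q _ h3 (fun h => h4.1 (h ▸ hp0)) (fun h => h4.2 (h ▸ hp0)))
    · have h4 := inn_chain (D.w p0) hp0 i hi.le (by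
        intro j hj hji
        refine hG.w_deg p0 _ ((D.w p0).getVert_mem_support _) ?_ ?_
        · intro h
          have := ((hD.w_path p0).getVert_eq_start_iff (by omega)).mp h
          omega
        · intro h
          have := ((hD.w_path p0).getVert_eq_end_iff (by omega)).mp h
          omega) i h0 le_rfl
      exact inn_end Sg' hnu hnv hC2 q h4 h3
  · -- the places
    intro ord hord
    obtain ⟨f, f1, f2, f3, f4⟩ := hf ord hord
    let pl : V → V ⊕ Dor (D.G.deleteEdges {e}) D.U := fun v => if v ∈ C then f v else Sum.inl v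
    have hpC : ∀ v ∈ C, pl v = f v := fun v hv => if_pos hv
    have hpN : ∀ v, v ∉ C → pl v = Sum.inl v := fun v hv => if_neg hv
    have hle : ∀ n, M * n ≤ M ^ 3 * n := fun n => Nat.mul_le_mul_right _ hM3.1
    refine ⟨pl, ?_, ?_, ?_, ?_⟩
    · intro v hv a ha
      by_cases h : v ∈ C
      · rw [hpC v h]
        exact f1 v h a ha
      · rw [hpN v h]
        intro h2
        exact hv (Sum.inl.inj h2 ▸ ha)
    · intro q hq
      rw [hmS, not_or] at hq
      rw [hx0, hxl]
      exact ⟨hpN _ hq.1, fun _ => hpN _ hq.2⟩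
    · intro q hq
      rw [hx0, hxl, hll]
      intro hvU
      by_cases h : u q ∈ C
      · obtain ⟨A, hA⟩ := (strand D e M C hD hG hC ord f f2 f3 f4 pl hpC hpN (p q) (hp q) (huv q) h
          (hnv q) (hin q)).1 hvU
        exact ⟨A, hA.trans (hle _)⟩
      · have h2 : v q ∈ C := ((hmS q).1 hq).resolve_left h
        obtain ⟨A, hA⟩ := (strand D e M C hD hG hC ord f f2 f3 f4 pl hpC hpN (p q).reverse
          (hp q).reverse (huv q).symm h2 (hnu q) (by
            intro x hx hxu hxv
            rw [SimpleGraph.Walk.support_reverse, List.mem_reverse] at hx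
            exact hin q x hx hxv hxu)).1 (huU q)
        refine ⟨A.reverse, ?_⟩
        rw [SimpleGraph.Walk.length_reverse] at hA ⊢
        exact hA.trans (hle _)
    · intro q hq
      rw [hx0, hxl, hll]
      intro hvU
      have h : u q ∈ C := ((hmS q).1 hq).resolve_right (fun h => hCU _ h hvU)
      obtain ⟨d, hd, A, hA⟩ := (strand D e M C hD hG hC ord f f2 f3 f4 pl hpC hpN (p q) (hp q)
        (huv q) h (hnv q) (hin q)).2 hvU
      exact ⟨d, hd, A, hA.trans (hle _)⟩

end Pool.Agent.Helper52.PL
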