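import Pool.Agent.Helper83.HR.Hub

/-!
# PL-D1, general form: surgery with few moved strands and short old curves, explicit bound

`R` a 1-planar graph with hub vertices `U`; `G` a graph with threads `Th`, its vertices are placed at vertices of `R`.
The threads outside `S0` have old curves with at most two edges in `R`. No closure is needed.
-/

set_option autoImplicit false

open Set
open Pool.Agent.Helper83.OP Pool.Agent.Helper83.LN Pool.Agent.Helper93.UP
open Pool.Agent.Helper83.HR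

namespace Pool.Agent.Helper52.PL

open Classical in
/-- the old curves which are met by a new route -/
theorem new_old {V T : Type} {R : SimpleGraph V} [Finite V] [Fintype T] {U : Set V} {S0 : Finset T}
    {z : T → ℕ → V} {zl : T → ℕ} (Z : Plz R) (hO : OldSys R U (S0 : Set T) z zl)
    (W : Rt Z.J (R.edgeSet × Bool) Z.src Z.tgt) (Rf : T → Rt Z.J (R.edgeSet × Bool) Z.src Z.tgt)
    (hold : ∀ τ, τ ∉ S0 → ∀ t ≤ (Rf τ).len, (Rf τ).nd t ∈ oldS Z z zl τ)
    (m : ℕ) (hm : ∀ t ≤ W.len, W.nd t ∉ hub Z U → t ≤ m) :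
    ∑ τ' : T, (if τ' ∈ S0 then 0 else (common W (Rf τ') \ hub Z U).ncard) ≤
      ∑ t ∈ Finset.range (m + 1), dw Z U (W.nd t) := by
  have h1 : ∀ τ' ∈ (Finset.univ : Finset T),
      (if τ' ∈ S0 then 0 else (common W (Rf τ') \ hub Z U).ncard) ≤
      ∑ t ∈ Finset.range (m + 1),
        (if (τ' ∉ S0 ∧ W.nd t ∈ oldS Z z zl τ') ∧ W.nd t ∉ hub Z U then 1 else 0) := by
    intro τ' _
    by_cases h : τ' ∈ S0
    · rw [if_pos h]
      exact Nat.zero_le _
    · rw [if_neg h, ← Finset.card_filter]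
      have h2 : common W (Rf τ') \ hub Z U ⊆
          ((((Finset.range (m + 1)).filter fun t =>
            (τ' ∉ S0 ∧ W.nd t ∈ oldS Z z zl τ') ∧ W.nd t ∉ hub Z U).image W.nd : Finset Z.J) :
              Set Z.J) := by
        rintro j ⟨⟨⟨s, hs, rfl⟩, t, ht, he⟩, hj⟩
        rw [Finset.mem_coe]
        refine Finset.mem_image_of_mem _ (Finset.mem_filter.2 ⟨Finset.mem_range.2 ?_, ⟨h, ?_⟩, hj⟩)
        · exact Nat.lt_succ_of_le (hm s hs hj)
        · rw [← he]
          exact hold τ' h t ht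
      refine (Set.ncard_le_ncard h2 (Finset.finite_toSet _)).trans ?_
      rw [Set.ncard_coe_finset]
      exact Finset.card_image_le
  refine (Finset.sum_le_sum h1).trans ?_
  rw [Finset.sum_comm]
  refine Finset.sum_le_sum ?_
  intro t _
  by_cases hj : W.nd t ∈ hub Z U
  · refine le_trans (le_of_eq ?_) (Nat.zero_le _)
    exact Finset.sum_eq_zero (fun τ' _ => if_neg (fun h => h.2 hj))
  · rw [← Finset.card_filter]
    have h2 : dw Z U (W.nd t) = wt Z (W.nd t) := if_neg hj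
    rw [h2]
    refine le_trans ?_ (old_countS Z hO (W.nd t))
    rw [← Set.ncard_coe_finset]
    apply Set.ncard_le_ncard _ (Set.toFinite _)
    intro τ' h
    obtain ⟨-, ⟨h3, h4⟩, -⟩ := Finset.mem_filter.1 (Finset.mem_coe.1 h)
    exact ⟨fun h5 => h3 (Finset.mem_coe.1 h5), h4⟩

/-- the number of nodes of an old curve -/
theorem oldS_card {V T : Type} {R : SimpleGraph V} (Z : Plz R) (z : T → ℕ → V) (zl : T → ℕ)
    (τ : T) (h : zl τ ≤ 2) : (oldS Z z zl τ).Finite ∧ (oldS Z z zl τ).ncard ≤ 5 := by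
  classical
  let g : ℕ → Option Z.J := fun s => if hs : ∃ f : R.edgeSet, (f : Sym2 V) = s(z τ s, z τ (s + 1)) then
    some (Z.bn hs.choose) else none
  set A : Finset (Option Z.J) := (Finset.range 3).image (fun s => some (Z.vn (z τ s))) ∪
    (Finset.range 2).image g with hA
  have hc : A.card ≤ 5 := by
    refine (Finset.card_union_le _ _).trans ?_
    have h1 := Finset.card_image_le (s := Finset.range 3) (f := fun s => some (Z.vn (z τ s)))
    have h2 := Finset.card_image_le (s := Finset.range 2) (f := g)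
    rw [Finset.card_range] at h1 h2
    omega
  have hsub : (some '' oldS Z z zl τ : Set (Option Z.J)) ⊆ (A : Set (Option Z.J)) := by
    rintro _ ⟨j, hj, rfl⟩
    rw [Finset.mem_coe, hA, Finset.mem_union]
    rcases hj with ⟨s, hs, rfl⟩ | ⟨f, ⟨s, hs, hf⟩, rfl⟩
    · left
      exact Finset.mem_image_of_mem _ (Finset.mem_range.2 (by omega))
    · right
      refine Finset.mem_image.2 ⟨s, Finset.mem_range.2 (by omega), ?_⟩
      have h1 : ∃ f : R.edgeSet, (f : Sym2 V) = s(z τ s, z τ (s + 1)) := ⟨f, hf⟩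
      have h2 : h1.choose = f := Subtype.ext (h1.choose_spec.trans hf.symm)
      simp only [g, dif_pos h1, h2]
  have hinj : Function.Injective (some : Z.J → Option Z.J) := Option.some_injective _
  have hfin : (some '' oldS Z z zl τ : Set (Option Z.J)).Finite :=
    (Finset.finite_toSet A).subset hsub
  refine ⟨Set.Finite.of_finite_image hfin hinj.injOn, ?_⟩
  rw [← Set.ncard_image_of_injective _ hinj]
  refine (Set.ncard_le_ncard hsub (Finset.finite_toSet A)).trans ?_
  rw [Set.ncard_coe_finset]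
  exact hc

theorem lite_gen {V V' T : Type} [Finite V] [Finite V'] [Fintype T]
    (G : SimpleGraph V) (R : SimpleGraph V') (U : Set V') (Th : Threads G T) (pl : V → V')
    (z : T → ℕ → V') (zl : T → ℕ) (M : ℕ) (S0 : Finset T)
    (hR : KPl 1 R) (hne : R.edgeSet.Nonempty)
    (hdoor : ∀ a ∈ U, ∀ v, R.Adj a v → deg R v ≤ 4)
    (hdeg : ∀ v, v ∉ U → deg R v ≤ M + 4) (hM1 : 1 ≤ M) (hS0 : S0.card ≤ M)
    (hone : ∀ u u', pl u ∈ U → pl u = pl u' → u = u')
    (hO : OldSys R U (S0 : Set T) z zl)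
    (hz : ∀ τ, τ ∉ S0 → z τ 0 = pl (Th.x τ 0) ∧ z τ (zl τ) = pl (Th.x τ (Th.len τ)) ∧
      zl τ ≤ 2)
    (hwalk : ∀ τ ∈ S0, ∃ w, (w = pl (Th.x τ (Th.len τ)) ∨
        (pl (Th.x τ (Th.len τ)) ∈ U ∧ R.Adj w (pl (Th.x τ (Th.len τ))))) ∧
      ∃ p : R.Walk (pl (Th.x τ 0)) w, (∀ x ∈ p.support, x ∉ U) ∧
        p.length ≤ M * Th.len τ) :
    KPl (100 * M ^ 2) G := by
  classical
  obtain ⟨pos, γ0, hd, h1⟩ := hR
  obtain ⟨Z, ⟨P⟩⟩ := planarize R pos γ0 hd (fun e he => by simpa using h1 e he)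
  have hJ : Finite Z.J := Z.fin
  have hJF : Fintype Z.J := Fintype.ofFinite _
  obtain ⟨L⟩ := exists_layout (plz_ne Z) P
  have hIne : Nonempty (R.edgeSet × Bool) := by
    obtain ⟨e, he⟩ := hne
    exact ⟨(⟨e, he⟩, true)⟩
  -- the price of a hub
  set K1 : ℕ := 28 * M ^ 2 with hK1
  set Mb : ℕ := 1 + ∑ τ : T, (K1 * Th.len τ + 12) with hMb
  have hMb1 : ∀ τ, K1 * Th.len τ + 12 < Mb := by
    intro τ
    have := Finset.single_le_sum (f := fun τ : T => K1 * Th.len τ + 12) (fun _ _ => Nat.zero_le _)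
      (Finset.mem_univ τ)
    have h2 : K1 * Th.len τ + 12 ≤ ∑ τ : T, (K1 * Th.len τ + 12) := this
    omega
  obtain ⟨Gam, hGam, hsurg⟩ := surgeryH (plz_ne Z) L (hc Z U Mb) (hub Z U)
  -- the walks
  have hw0 : ∀ τ ∈ S0, pl (Th.x τ 0) ∉ U := by
    intro τ hτ
    obtain ⟨w, -, p, hp, -⟩ := hwalk τ hτ
    exact hp _ p.start_mem_support
  have hsumdeg : ∀ (u v : V') (p : R.Walk u v), (∀ x ∈ p.support, x ∉ U) →
      (p.support.map (deg R)).sum ≤ (M + 4) * (p.length + 1) := by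
    intro u v p hp
    have h2 : ∀ l : List V', (∀ x ∈ l, x ∉ U) → (l.map (deg R)).sum ≤ (M + 4) * l.length := by
      intro l
      induction l with
      | nil => intro _; simp
      | cons a l ih =>
        intro hl
        rw [List.map_cons, List.sum_cons, List.length_cons]
        have h3 := ih (fun x hx => hl x (List.mem_cons_of_mem _ hx))
        have h4 := hdeg a (hl a (by simp))
        calc deg R a + (l.map (deg R)).sum ≤ (M + 4) + (M + 4) * l.length := by omega
          _ = (M + 4) * (l.length + 1) := by ring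
    have h3 := h2 p.support hp
    rw [SimpleGraph.Walk.length_support] at h3
    exact h3
  have hwk : ∀ τ ∈ S0, ∃ l,
      Wk Z.src Z.tgt (Z.vn (pl (Th.x τ 0))) (Z.vn (pl (Th.x τ (Th.len τ)))) l ∧
      ((pl (Th.x τ (Th.len τ)) ∉ U ∧ wcost (hc Z U Mb) l ≤ K1 * Th.len τ) ∨
        (pl (Th.x τ (Th.len τ)) ∈ U ∧ wcost (hc Z U Mb) l ≤ K1 * Th.len τ + 12 + Mb)) := by
    intro τ hτ
    obtain ⟨w, hw, p, hp, hpl⟩ := hwalk τ hτ
    have hc' : 2 * (p.support.map (deg R)).sum + 8 * p.length ≤ K1 * Th.len τ := by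
      have h2 := hsumdeg _ _ p hp
      have h3 := Th.pos τ
      have h4 : (M + 4) * (p.length + 1) ≤ (5 * M) * (2 * (M * Th.len τ)) := by
        refine Nat.mul_le_mul (by omega) ?_
        have : 1 ≤ M * Th.len τ := Nat.mul_pos hM1 h3
        omega
      have h5 : M * Th.len τ ≤ M ^ 2 * Th.len τ := by
        refine Nat.mul_le_mul_right _ ?_
        nlinarith
      have h6 : (5 * M) * (2 * (M * Th.len τ)) = 10 * (M ^ 2 * Th.len τ) := by ring
      have h7 : K1 * Th.len τ = 28 * (M ^ 2 * Th.len τ) := by rw [hK1]; ring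
      omega
    obtain ⟨l, hl, hcl⟩ := wk_walkH Z U Mb p hp
    rcases hw with hw | ⟨hwU, hadj⟩
    · subst hw
      exact ⟨l, hl, Or.inl ⟨hp _ p.end_mem_support, by omega⟩⟩
    · obtain ⟨l', hl', hcl'⟩ := wk_stepH Z U Mb hadj (hp _ p.end_mem_support)
      refine ⟨l ++ l', wk_append hl hl', Or.inr ⟨hwU, ?_⟩⟩
      rw [wcost_append]
      rw [hw_hub (vn_hub.2 hwU)] at hcl'
      have h4 := (wt_vn Z w).trans (hdoor _ hwU w hadj.symm)
      omega
  set R' : T → Rt Z.J (R.edgeSet × Bool) Z.src Z.tgt := fun τ =>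
    Gam (Z.vn (pl (Th.x τ 0))) (Z.vn (pl (Th.x τ (Th.len τ)))) with hR'
  have hfrom : ∀ τ ∈ S0,
      (R' τ).From (Z.vn (pl (Th.x τ 0))) (Z.vn (pl (Th.x τ (Th.len τ)))) := by
    intro τ hτ
    obtain ⟨l, hl, -⟩ := hwk τ hτ
    exact (hGam _ _ ⟨l, hl⟩).1
  have hgeo : ∀ τ ∈ S0, IsGeo (hc Z U Mb) (R' τ) := by
    intro τ hτ
    obtain ⟨l, hl, -⟩ := hwk τ hτ
    exact (hGam _ _ ⟨l, hl⟩).2
  have hcost : ∀ τ ∈ S0,
      (pl (Th.x τ (Th.len τ)) ∉ U ∧ (R' τ).cost (hc Z U Mb) ≤ K1 * Th.len τ) ∨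
      (pl (Th.x τ (Th.len τ)) ∈ U ∧ (R' τ).cost (hc Z U Mb) ≤ K1 * Th.len τ + 12 + Mb) := by
    intro τ hτ
    obtain ⟨l, hl, h⟩ := hwk τ hτ
    have h2 := hgeo τ hτ l (by rw [(hfrom τ hτ).1, (hfrom τ hτ).2]; exact hl)
    rcases h with ⟨h3, h4⟩ | ⟨h3, h4⟩
    · exact Or.inl ⟨h3, h2.trans h4⟩
    · exact Or.inr ⟨h3, h2.trans h4⟩
  have hn0 : ∀ τ ∈ S0, (R' τ).nd 0 ∉ hub Z U := by
    intro τ hτ h
    rw [(hfrom τ hτ).1] at h
    exact hw0 τ hτ (vn_hub.1 h)
  -- hubs on the new routes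
  have hhubs : ∀ τ ∈ S0, ∀ t ≤ (R' τ).len, (R' τ).nd t ∈ hub Z U →
      t = (R' τ).len ∧ pl (Th.x τ (Th.len τ)) ∈ U := by
    intro τ hτ t ht h
    rcases hcost τ hτ with ⟨h3, h4⟩ | ⟨h3, h4⟩
    · exact absurd h (hub_free (R' τ) (hn0 τ hτ)
        (lt_of_le_of_lt h4 (by have := hMb1 τ; omega)) ht)
    · refine ⟨hub_end (M := Mb) (R' τ) (hn0 τ hτ) ?_ ?_ ht h, h3⟩
      · rw [(hfrom τ hτ).2]
        exact vn_hub.2 h3
      · have := hMb1 τ
        omega
  have hD : ∀ j, j ∉ hub Z U → wt Z j ≤ M + 8 := fun j hj =>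
    (wt_leH Z U (M + 4) hdeg j hj)
  have hdw : ∀ j, dw Z U j ≤ M + 8 := by
    intro j
    unfold dw
    split_ifs with h
    · exact Nat.zero_le _
    · exact hD j h
  -- the weight of the nodes of a new route
  have hwsum : ∀ τ ∈ S0, ∃ m, (∀ t ≤ (R' τ).len, (R' τ).nd t ∉ hub Z U → t ≤ m) ∧
      ∑ t ∈ Finset.range (m + 1), dw Z U ((R' τ).nd t) ≤ K1 * Th.len τ + 12 + (M + 8) := by
    intro τ hτ
    have hstep : ∀ m, m ≤ (R' τ).len → ∑ k ∈ Finset.range m, dw Z U ((R' τ).nd k) ≤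
        ∑ k ∈ Finset.range m, hc Z U Mb ((R' τ).ar k) := by
      intro m hm
      refine Finset.sum_le_sum ?_
      intro k hk
      have hk' := Finset.mem_range.1 hk
      have h2 := dw_le Z U Mb ((R' τ).ar k) ((R' τ).dir k)
      rw [(R' τ).fst k (by omega)] at h2
      exact h2
    rcases hcost τ hτ with ⟨h7, h8⟩ | ⟨h7, h8⟩
    · refine ⟨(R' τ).len, fun t ht _ => ht, ?_⟩
      rw [Finset.sum_range_succ]
      have h9 := hstep _ le_rfl
      have h10 := hdw ((R' τ).nd (R' τ).len)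
      have h11 : ∑ k ∈ Finset.range (R' τ).len, hc Z U Mb ((R' τ).ar k) =
        (R' τ).cost (hc Z U Mb) := rfl
      omega
    · have h10 : (R' τ).len ≠ 0 := by
        intro h0
        have h11 := (hfrom τ hτ).2
        rw [h0] at h11
        exact hn0 τ hτ (by rw [h11]; exact vn_hub.2 h7)
      obtain ⟨n, hn⟩ : ∃ n, (R' τ).len = n + 1 := ⟨(R' τ).len - 1, by omega⟩
      refine ⟨n, ?_, ?_⟩
      · intro t ht h
        have h2 : t ≠ (R' τ).len := by
          rintro rfl
          rw [(hfrom τ hτ).2] at h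
          exact h (vn_hub.2 h7)
        omega
      · have h11 := hub_arc (M := Mb) (t := n) (R' τ) (by omega) (by
          rw [← hn, (hfrom τ hτ).2]
          exact vn_hub.2 h7)
        have h12 : (R' τ).cost (hc Z U Mb) = ∑ k ∈ Finset.range n, hc Z U Mb ((R' τ).ar k) +
            hc Z U Mb ((R' τ).ar n) := by
          unfold Rt.cost
          rw [hn, Finset.sum_range_succ]
        rw [Finset.sum_range_succ]
        have h9 := hstep n (by omega)
        have h13 := hdw ((R' τ).nd n)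
        omega
  -- the old routes
  have hold : ∀ τ, ∃ W : Rt Z.J (R.edgeSet × Bool) Z.src Z.tgt, τ ∉ S0 →
      W.From (Z.vn (pl (Th.x τ 0))) (Z.vn (pl (Th.x τ (Th.len τ)))) ∧
      (∀ t ≤ W.len, W.nd t ∈ oldS Z z zl τ) := by
    intro τ
    by_cases h : τ ∈ S0
    · exact ⟨R' τ, fun h' => absurd h h'⟩
    · have h' : τ ∉ (S0 : Set T) := fun h'' => h (Finset.mem_coe.1 h'')
      obtain ⟨W, h4, h5⟩ := old_route Z (z τ) (zl τ) (hO.pos τ h') (hO.adj τ h')
      rw [(hz τ h).1, (hz τ h).2.1] at h4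
      refine ⟨W, fun _ => ⟨h4, fun t ht => ?_⟩⟩
      exact h5 t ht
  choose W hW using hold
  set Rf : T → Rt Z.J (R.edgeSet × Bool) Z.src Z.tgt := fun τ => if τ ∈ S0 then R' τ else W τ
    with hRf
  have hRin : ∀ τ ∈ S0, Rf τ = R' τ := fun τ h => if_pos h
  have hRout : ∀ τ, τ ∉ S0 → Rf τ = W τ := fun τ h => if_neg h
  have hRold : ∀ τ, τ ∉ S0 → ∀ t ≤ (Rf τ).len, (Rf τ).nd t ∈ oldS Z z zl τ := by
    intro τ h
    rw [hRout τ h]
    exact (hW τ h).2
  refine hsurg V T G Th (S0 : Set T) (fun v => Z.vn (pl v)) Rf ?_ ?_ ?_ ?_ (100 * M ^ 2) ?_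
  · intro u u' h2 h3
    exact hone u u' (vn_hub.1 h2) (Z.vn_inj h3)
  · intro τ
    by_cases h : τ ∈ S0
    · rw [hRin τ h]
      exact hfrom τ h
    · rw [hRout τ h]
      exact (hW τ h).1
  · intro τ h
    rw [hRin τ (Finset.mem_coe.1 h)]
  · intro τ t ht h
    by_cases h' : τ ∈ S0
    · rw [hRin τ h'] at ht h ⊢
      exact Or.inr (hhubs τ h' t ht h).1
    · have h0' : τ ∉ (S0 : Set T) := fun h'' => h' (Finset.mem_coe.1 h'')
      rw [hRout τ h'] at ht h ⊢
      right
      have h2 := (hW τ h').2 t ht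
      obtain ⟨a, ha, hae⟩ := h
      rw [← hae] at h2
      obtain ⟨s, hs, hse⟩ := vn_mem_oldS h2
      have h3 : s = zl τ := by
        by_contra h4
        exact hO.hub τ h0' s (by omega) (by rw [← hse]; exact ha)
      subst h3
      have h4 : (W τ).nd t = (W τ).nd (W τ).len := by
        rw [← hae, hse, (hz τ h').2.1]
        exact (hW τ h').1.2.symm
      exact (W τ).inj _ _ ht le_rfl h4
  · intro τ
    have hMM : M ≤ M ^ 2 * Th.len τ := by
      have h2 : M * 1 ≤ M * (M * Th.len τ) := Nat.mul_le_mul_left _ (Nat.mul_pos hM1 (Th.pos τ))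
      have h3 : M * (M * Th.len τ) = M ^ 2 * Th.len τ := by ring
      omega
    have hcardS : ∀ k : ℕ, ∑ τ' : T, (if τ' ∈ S0 then k else 0) ≤ k * M := by
      intro k
      rw [← Finset.sum_filter, Finset.sum_const, smul_eq_mul, mul_comm]
      refine Nat.mul_le_mul_left _ ?_
      have h2 : (Finset.univ.filter fun τ' => τ' ∈ S0) = S0 := by
        ext x
        simp
      rw [h2]
      exact hS0
    by_cases hτ : τ ∈ S0
    · -- a new route
      obtain ⟨m, hm, hsum⟩ := hwsum τ hτ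
      have h2 : ∀ τ' ∈ (Finset.univ : Finset T),
          (if τ' = τ then 0 else multH Rf (S0 : Set T) (hub Z U) τ τ') ≤
          (if τ' ∈ S0 then 1 else 0) +
            (if τ' ∈ S0 then 0 else (common (R' τ) (Rf τ') \ hub Z U).ncard) := by
        intro τ' _
        split_ifs with h3 h4 h4
        · omega
        · omega
        · unfold multH
          rw [if_pos ⟨Finset.mem_coe.2 hτ, Finset.mem_coe.2 h4⟩]
          exact (min_le_left _ _).trans (by omega)
        · unfold multH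
          rw [if_neg (fun h => h4 (Finset.mem_coe.1 h.2)), hRin τ hτ]
          omega
      refine (Finset.sum_le_sum h2).trans ?_
      rw [Finset.sum_add_distrib]
      have h5 := hcardS 1
      have h6 := new_old Z hO (R' τ) Rf hRold m hm
      have h7 : K1 * Th.len τ = 28 * (M ^ 2 * Th.len τ) := by rw [hK1]; ring
      have h8 : 100 * M ^ 2 * Th.len τ = 100 * (M ^ 2 * Th.len τ) := by ring
      omega
    · -- an old route
      have hτ' : τ ∉ (S0 : Set T) := fun h'' => hτ (Finset.mem_coe.1 h'')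
      have hz2 := (hz τ hτ).2.2
      obtain ⟨hfin, hc5⟩ := oldS_card Z z zl τ hz2
      have h2 : ∀ τ' ∈ (Finset.univ : Finset T),
          (if τ' = τ then 0 else multH Rf (S0 : Set T) (hub Z U) τ τ') ≤
          (if τ' ∈ S0 then 5 else 0) +
            (if τ' = τ ∨ τ' ∈ (S0 : Set T) then 0 else
              ((oldS Z z zl τ \ hub Z U) ∩ (oldS Z z zl τ' \ hub Z U)).ncard) := by
        intro τ' _
        by_cases h3 : τ' = τ
        · rw [if_pos h3]
          exact Nat.zero_le _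
        · rw [if_neg h3]
          unfold multH
          rw [if_neg (fun h => hτ (Finset.mem_coe.1 h.1))]
          by_cases h4 : τ' ∈ S0
          · rw [if_pos h4, if_pos (Or.inr (Finset.mem_coe.2 h4)), Nat.add_zero]
            refine le_trans (Set.ncard_le_ncard ?_ hfin) hc5
            rintro j ⟨⟨⟨s, hs, rfl⟩, -⟩, -⟩
            exact hRold τ hτ s hs
          · rw [if_neg h4, if_neg (by
              rintro (h5 | h5)
              · exact h3 h5
              · exact h4 (Finset.mem_coe.1 h5)), Nat.zero_add]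
            refine Set.ncard_le_ncard ?_ ((hfin.subset Set.sdiff_subset).subset Set.inter_subset_left)
            rintro j ⟨⟨⟨s, hs, rfl⟩, t, ht, he⟩, hj⟩
            refine ⟨⟨hRold τ hτ s hs, hj⟩, ?_, hj⟩
            rw [← he]
            exact hRold τ' h4 t ht
      refine (Finset.sum_le_sum h2).trans ?_
      rw [Finset.sum_add_distrib]
      have h5 := hcardS 5
      have h6 := old_oldS Z hO (M + 8) hD τ hτ'
      have h8 : 100 * M ^ 2 * Th.len τ = 100 * (M ^ 2 * Th.len τ) := by ring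
      have h9 : ∑ τ' : T, (if τ' = τ ∨ τ' ∈ (S0 : Set T) then 0 else
          ((oldS Z z zl τ \ hub Z U) ∩ (oldS Z z zl τ' \ hub Z U)).ncard) ≤ 2 * (M + 8) + zl τ := by
        convert h6
      refine (add_le_add h5 h9).trans ?_
      omega

end Pool.Agent.Helper52.PL
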